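import Pool.Agent.Run7.h477.WC.Stm

/-! Project WC, piece H90. -/

set_option autoImplicit false

universe u

namespace Run7.h81.WC

open Run7.h477.WC Finset

section

variable {P : Type} [Group P] {B A : Type u} [CommRing B] [CommRing A] [Algebra B A]
  [MulSemiringAction P A]

/-- The monoid homomorphism `y ↦ (τ ↦ τ y)`. -/
def orb (P : Type) [Group P] (A : Type u) [CommRing A] [MulSemiringAction P A] :
    A →* (P → A) where
  toFun y τ := τ • y
  map_one' := by
    funext τ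
    exact smul_one τ
  map_mul' x y := by
    funext τ
    exact smul_mul' τ x y

/-- The functions `τ ↦ ∑ x_i τ(y_i)`. -/
def SA (P : Type) [Group P] (A : Type u) [CommRing A] [MulSemiringAction P A] :
    Subalgebra A (P → A) := Algebra.adjoin A (MonoidHom.mrange (orb P A) : Set (P → A))

theorem mem_SA_orb (y : A) : orb P A y ∈ SA P A := Algebra.subset_adjoin ⟨y, rfl⟩

theorem mem_SA_iff (F : P → A) (h : F ∈ SA P A) :
    ∃ c : A →₀ A, ∀ τ : P, ∑ y ∈ c.support, c y * (τ • y) = F τ := by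
  have h1 : F ∈ Subalgebra.toSubmodule (SA P A) := h
  rw [SA, Algebra.adjoin_eq_span, Submonoid.closure_eq, MonoidHom.coe_mrange,
    Finsupp.mem_span_range_iff_exists_finsupp] at h1
  obtain ⟨c, hc⟩ := h1
  refine ⟨c, fun τ => ?_⟩
  rw [← hc, Finsupp.sum, Finset.sum_apply]
  rfl

theorem exists_sep (hT : IsTorsor P B A) {σ : P} (hσ : σ ≠ 1) :
    ∃ F ∈ SA P A, F 1 = 1 ∧ F σ = 0 := by
  have htop : Ideal.span {x : A | ∃ b : A, x = σ • b - b} = ⊤ := by
    by_contra hne
    obtain ⟨Q, hQ, hle⟩ := Ideal.exists_le_maximal _ hne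
    obtain ⟨a, ha⟩ := hT.free σ hσ Q hQ.isPrime
    exact ha (hle (Ideal.subset_span ⟨a, rfl⟩))
  have key : ∀ x ∈ Ideal.span {x : A | ∃ b : A, x = σ • b - b}, ∃ F ∈ SA P A, F 1 = x ∧ F σ = 0 := by
    intro x hx
    refine Submodule.span_induction (p := fun x _ => ∃ F ∈ SA P A, F 1 = x ∧ F σ = 0)
      ?_ ?_ ?_ ?_ hx
    · rintro _ ⟨b, rfl⟩
      refine ⟨(σ • b) • orb P A 1 - orb P A b,
        (SA P A).sub_mem ((SA P A).smul_mem (mem_SA_orb 1) _) (mem_SA_orb b), ?_, ?_⟩
      · show (σ • b) * ((1 : P) • (1 : A)) - (1 : P) • b = σ • b - b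
        rw [one_smul, one_smul, mul_one]
      · show (σ • b) * (σ • (1 : A)) - σ • b = 0
        rw [smul_one, mul_one, sub_self]
    · exact ⟨0, (SA P A).zero_mem, rfl, rfl⟩
    · rintro x y _ _ ⟨F, hF, hF1, hF2⟩ ⟨G, hG, hG1, hG2⟩
      refine ⟨F + G, (SA P A).add_mem hF hG, ?_, ?_⟩
      · rw [Pi.add_apply, hF1, hG1]
      · rw [Pi.add_apply, hF2, hG2, add_zero]
    · rintro a x _ ⟨F, hF, hF1, hF2⟩
      refine ⟨a • F, (SA P A).smul_mem hF a, ?_, ?_⟩
      · rw [Pi.smul_apply, hF1]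
      · rw [Pi.smul_apply, hF2, smul_zero]
  exact key 1 (by rw [htop]; trivial)

theorem exists_delta [Fintype P] [DecidableEq P] (hT : IsTorsor P B A) :
    ∃ c : A →₀ A, ∀ τ : P, ∑ y ∈ c.support, c y * (τ • y) = if τ = 1 then 1 else 0 := by
  have h1 : ∀ σ : P, ∃ F ∈ SA P A, F 1 = 1 ∧ (σ ≠ 1 → F σ = 0) := by
    intro σ
    by_cases hσ : σ = 1
    · exact ⟨1, (SA P A).one_mem, rfl, fun h => absurd hσ h⟩
    · obtain ⟨F, hF, h1, h2⟩ := exists_sep hT hσ
      exact ⟨F, hF, h1, fun _ => h2⟩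
  choose F hF hF1 hF2 using h1
  obtain ⟨c, hc⟩ := mem_SA_iff (∏ σ, F σ) ((SA P A).prod_mem fun σ _ => hF σ)
  refine ⟨c, fun τ => ?_⟩
  rw [hc τ, Finset.prod_apply]
  split_ifs with h
  · subst h
    exact Finset.prod_eq_one fun σ _ => hF1 σ
  · exact Finset.prod_eq_zero (Finset.mem_univ τ) (hF2 τ h)

theorem smul_sum_univ [Fintype P] (σ : P) (g : P → A) :
    σ • ∑ τ, g τ = ∑ τ, σ • g τ := Finset.smul_sum

theorem exists_trace_one [Fintype P] (hT : IsTorsor P B A) : ∃ a : A, ∑ τ : P, τ • a = 1 := by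
  classical
  have hinv : ∀ a : A, ∃ b : B, algebraMap B A b = ∑ τ : P, τ • a := by
    intro a
    apply hT.inv
    intro σ
    rw [Finset.smul_sum]
    simp only [smul_smul]
    exact Fintype.sum_equiv (Equiv.mulLeft σ) _ _ fun τ => rfl
  have hcomm : ∀ (τ : P) (b : B) (a : A), τ • (algebraMap B A b * a) = algebraMap B A b * (τ • a) := by
    intro τ b a
    rw [smul_mul', hT.comm]
  set I : Ideal B :=
    { carrier := {b | ∃ a : A, ∑ τ : P, τ • a = algebraMap B A b}
      add_mem' := by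
        rintro b b' ⟨a, ha⟩ ⟨a', ha'⟩
        refine ⟨a + a', ?_⟩
        simp only [smul_add, Finset.sum_add_distrib]
        rw [ha, ha', map_add]
      zero_mem' := ⟨0, by simp⟩
      smul_mem' := by
        rintro b b' ⟨a, ha⟩
        refine ⟨algebraMap B A b * a, ?_⟩
        simp only [hcomm]
        rw [← Finset.mul_sum, ha, smul_eq_mul, map_mul] } with hI
  obtain ⟨c, hc⟩ := exists_delta hT
  have hle : (⊤ : Submodule B A) ≤ I • (⊤ : Submodule B A) := by
    intro a _
    have h1 : a = ∑ y ∈ c.support, (∑ τ : P, τ • (y * a)) * c y := by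
      simp only [smul_mul', Finset.sum_mul]
      rw [Finset.sum_comm]
      have h2 : ∀ τ : P, ∑ y ∈ c.support, τ • y * τ • a * c y = if τ = 1 then a else 0 := by
        intro τ
        have h3 : ∑ y ∈ c.support, τ • y * τ • a * c y =
            (∑ y ∈ c.support, c y * (τ • y)) * (τ • a) := by
          rw [Finset.sum_mul]
          exact Finset.sum_congr rfl fun y _ => by ring
        rw [h3, hc τ]
        split_ifs with h
        · rw [h, one_smul, one_mul]
        · rw [zero_mul]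
      rw [Finset.sum_congr rfl fun τ _ => h2 τ]
      simp
    rw [h1]
    refine Submodule.sum_mem _ fun y _ => ?_
    obtain ⟨b, hb⟩ := hinv (y * a)
    rw [← hb, ← Algebra.smul_def]
    exact Submodule.smul_mem_smul ⟨y * a, hb.symm⟩ trivial
  obtain ⟨r, hr1, hr2⟩ := Submodule.exists_sub_one_mem_and_smul_eq_zero_of_fg_of_le_smul I ⊤
    hT.finite.fg_top hle
  have h3 := hr2 1 trivial
  rw [Algebra.smul_def, mul_one] at h3
  have h4 : r = 0 := hT.inj (by rw [h3, map_zero])
  rw [h4, zero_sub] at hr1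
  have h5 : (1 : B) ∈ I := by
    have := I.neg_mem hr1
    rwa [neg_neg] at this
  obtain ⟨a, ha⟩ := h5
  exact ⟨a, by rw [ha, map_one]⟩

end

theorem t_H90 : S_H90.{u} := by
  intro p hp P _ _ B A _ _ _ _ hT hpA χ hχ
  have := Fintype.ofFinite P
  rcases subsingleton_or_nontrivial A with hA | hA
  · exact ⟨0, 0, fun _ => Subsingleton.elim _ _, Subsingleton.elim _ _⟩
  have hchar : CharP A p := (CharP.charP_iff_prime_eq_zero hp.out).2 hpA
  obtain ⟨a, ha⟩ := exists_trace_one hT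
  set i : ZMod p →+* A := ZMod.castHom (dvd_refl p) A with hi
  have hval : ∀ c : ZMod p, ((c.val : ℕ) : A) = i c := by
    intro c
    rw [hi, ZMod.castHom_apply, ZMod.natCast_val]
  have hfix : ∀ (σ : P) (c : ZMod p), σ • i c = i c := by
    intro σ c
    rw [← hval]
    exact map_natCast (MulSemiringAction.toRingHom P A σ) _
  set y : A := -∑ τ : P, i (χ τ) * (τ • a) with hy
  have hact : ∀ σ : P, σ • y = y + i (χ σ) := by
    intro σ
    have h1 : σ • ∑ τ : P, i (χ τ) * (τ • a) = ∑ τ : P, i (χ (σ⁻¹ * τ)) * (τ • a) := by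
      rw [Finset.smul_sum]
      refine Fintype.sum_equiv (Equiv.mulLeft σ) _ _ fun τ => ?_
      rw [smul_mul', hfix, smul_smul, Equiv.coe_mulLeft, inv_mul_cancel_left]
    have h2 : ∀ τ : P, i (χ (σ⁻¹ * τ)) = i (χ τ) - i (χ σ) := by
      intro τ
      have h3 := hχ σ (σ⁻¹ * τ)
      rw [mul_inv_cancel_left] at h3
      rw [h3, map_add]
      ring
    rw [hy, smul_neg, h1]
    simp only [h2, sub_mul, Finset.sum_sub_distrib]
    rw [← Finset.mul_sum, ha, mul_one]
    ring
  obtain ⟨f, hf⟩ := hT.inv (y ^ p - y) (by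
    intro σ
    rw [smul_sub, smul_pow', hact σ, add_pow_char, ← map_pow, ZMod.pow_card]
    ring)
  exact ⟨y, f, fun σ => by rw [hval, hact], hf.symm⟩

end Run7.h81.WC
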