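import Pool.Agent.Run7.h477.WC.Stm

/-! Project WC, piece MIN. -/

set_option autoImplicit false

universe u

namespace Run7.h81.WC

open Polynomial Run7.h477.WC

section

variable {p : ℕ} [hp : Fact p.Prime] {K : Type*} [Field K] [CharP K p]

theorem add_as (h g g' : K[X]) :
    h + g ^ p - g + g' ^ p - g' = h + (g + g') ^ p - (g + g') := by
  rw [add_pow_char]
  ring

omit hp [CharP K p] in
theorem minDeg_le (h g : K[X]) : minDeg p h ≤ (h + g ^ p - g).natDegree :=
  Nat.sInf_le ⟨g, rfl⟩

omit hp [CharP K p] in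
theorem exists_minDeg (h : K[X]) : ∃ g : K[X], (h + g ^ p - g).natDegree = minDeg p h :=
  Nat.sInf_mem (s := {n | ∃ g : K[X], (h + g ^ p - g).natDegree = n}) ⟨_, 0, rfl⟩

theorem minDeg_as (h g : K[X]) : minDeg p (h + g ^ p - g) = minDeg p h := by
  apply le_antisymm
  · obtain ⟨g', hg'⟩ := exists_minDeg (p := p) h
    rw [← hg']
    have h1 := minDeg_le (p := p) (h + g ^ p - g) (g' - g)
    rwa [add_as, add_sub_cancel] at h1
  · obtain ⟨g', hg'⟩ := exists_minDeg (p := p) (h + g ^ p - g)
    rw [← hg', add_as]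
    exact minDeg_le _ _

omit hp [CharP K p] in
theorem minDeg_comp_le (h : K[X]) (r s : K) (hr : r ≠ 0) :
    minDeg p (h.comp (C r * X + C s)) ≤ minDeg p h := by
  obtain ⟨g, hg⟩ := exists_minDeg (p := p) h
  have h1 : (h.comp (C r * X + C s) + g.comp (C r * X + C s) ^ p - g.comp (C r * X + C s)).natDegree
      = minDeg p h := by
    rw [← hg, ← pow_comp, ← add_comp, ← sub_comp, natDegree_comp, natDegree_linear hr, mul_one]
  rw [← h1]
  exact Nat.sInf_le ⟨_, rfl⟩

omit hp [CharP K p] in
theorem minDeg_comp (h : K[X]) (r s : K) (hr : r ≠ 0) :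
    minDeg p (h.comp (C r * X + C s)) = minDeg p h := by
  apply le_antisymm (minDeg_comp_le h r s hr)
  have h1 := minDeg_comp_le (p := p) (h.comp (C r * X + C s)) r⁻¹ (-(r⁻¹ * s)) (inv_ne_zero hr)
  have h2 : (C r * X + C s).comp (C r⁻¹ * X + C (-(r⁻¹ * s))) = (X : K[X]) := by
    simp only [add_comp, mul_comp, C_comp, X_comp, mul_add, ← mul_assoc, ← C_mul]
    rw [mul_inv_cancel₀ hr]
    have h3 : r * -(r⁻¹ * s) = -s := by
      rw [mul_neg, ← mul_assoc, mul_inv_cancel₀ hr, one_mul]
    rw [h3]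
    simp
  rwa [comp_assoc, h2, comp_X] at h1

end

theorem t_MIN : S_MIN.{u} := by
  intro p _ K _ _ _
  refine ⟨?_, fun h r s hr => minDeg_comp h r s hr, fun h g => minDeg_as h g⟩
  intro h
  obtain ⟨g, hg⟩ := exists_minDeg (p := p) h
  have hp2 := (Fact.out : p.Prime).two_le
  rcases Nat.eq_zero_or_pos (h + g ^ p - g).natDegree with h0 | h0
  · obtain ⟨c, hc⟩ : ∃ c : K, h + g ^ p - g = C c := ⟨_, eq_C_of_natDegree_eq_zero h0⟩
    obtain ⟨e, he⟩ : ∃ e : K, (X ^ p - X + C c : K[X]).IsRoot e := by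
      apply IsAlgClosed.exists_root
      have hd : (X ^ p - X + C c : K[X]).degree = p := by
        rw [sub_add, degree_sub_eq_left_of_degree_lt]
        · exact degree_X_pow p
        · rw [degree_X_pow, degree_X_sub_C]
          exact_mod_cast (by omega : 1 < p)
      rw [hd]
      exact_mod_cast (by omega : p ≠ 0)
    have he' : e ^ p - e + c = 0 := by simpa [IsRoot] using he
    have h1 : h + (g + C e) ^ p - (g + C e) = 0 := by
      rw [← add_as, hc, ← C_pow, ← C_add, ← C_sub]
      rw [show c + e ^ p - e = e ^ p - e + c by ring, he', C_0]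
    refine ⟨g + C e, ?_, Or.inl h1⟩
    rw [h1, natDegree_zero, ← hg, h0]
  · refine ⟨g, hg, Or.inr ?_⟩
    rintro ⟨k, hk⟩
    set f := h + g ^ p - g with hf
    obtain ⟨b, hb⟩ := IsAlgClosed.exists_pow_nat_eq f.leadingCoeff (by omega : 0 < p)
    have hk0 : 0 < k := by
      rcases Nat.eq_zero_or_pos k with h1 | h1
      · rw [h1, mul_zero] at hk
        omega
      · exact h1
    have h1 : h + (g + -(C b * X ^ k)) ^ p - (g + -(C b * X ^ k)) =
        (f - C f.leadingCoeff * X ^ f.natDegree) + C b * X ^ k := by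
      rw [← add_as, ← hf]
      have h2 : (-(C b * X ^ k : K[X])) ^ p = -(C f.leadingCoeff * X ^ f.natDegree) := by
        have h3 : (-(C b * X ^ k : K[X])) ^ p + (C b * X ^ k) ^ p = 0 := by
          rw [← add_pow_char, neg_add_cancel, zero_pow (by omega)]
        rw [eq_neg_of_add_eq_zero_left h3, mul_pow, ← C_pow, hb, ← pow_mul, hk, mul_comm k p]
      rw [h2]
      ring
    have h2 : (h + (g + -(C b * X ^ k)) ^ p - (g + -(C b * X ^ k))).natDegree < f.natDegree := by
      rw [h1]
      refine (natDegree_add_le _ _).trans_lt (max_lt ?_ ?_)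
      · rw [self_sub_C_mul_X_pow]
        have h4 := eraseLead_natDegree_le f
        omega
      · refine (natDegree_C_mul_X_pow_le _ _).trans_lt ?_
        rw [hk]
        nlinarith
    have h3 := minDeg_le (p := p) h (g + -(C b * X ^ k))
    rw [← hg] at h3
    omega

end Run7.h81.WC
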