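import Pool.Agent.Run7.h81.WC.MIN

/-! Project WC, piece SEMI. -/

set_option autoImplicit false

universe u

namespace Run7.h81.WC

open Polynomial Run7.h477.WC Finset

/-- The invariants of a polynomial modulo `g ^ p - g`. -/
noncomputable def CC (p : ℕ) {R : Type*} [CommRing R] (N i : ℕ) (h : R[X]) : R :=
  ∑ j ∈ range (N + 1), h.coeff (i * p ^ j) ^ (p ^ (N - j))

theorem CC_map (p : ℕ) {R S : Type*} [CommRing R] [CommRing S] (φ : R →+* S) (N i : ℕ)
    (h : R[X]) : CC p N i (h.map φ) = φ (CC p N i h) := by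
  simp only [CC, coeff_map, map_sum, map_pow]

section

variable {p : ℕ} [hp : Fact p.Prime] {K : Type*} [Field K] [CharP K p]

theorem CC_add (N i : ℕ) (h g : K[X]) : CC p N i (h + g) = CC p N i h + CC p N i g := by
  simp only [CC, coeff_add, add_pow_char_pow, sum_add_distrib]

theorem CC_sub (N i : ℕ) (h g : K[X]) : CC p N i (h - g) = CC p N i h - CC p N i g := by
  simp only [CC, coeff_sub, sub_pow_char_pow, sum_sub_distrib]

theorem CC_succ (N i : ℕ) (h : K[X]) :
    CC p (N + 1) i h = CC p N i h ^ p + h.coeff (i * p ^ (N + 1)) := by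
  rw [CC, sum_range_succ, Nat.sub_self, pow_zero, pow_one, CC, sum_pow_char]
  congr 1
  refine sum_congr rfl fun j hj => ?_
  have hj' : j ≤ N := Nat.lt_succ_iff.1 (mem_range.1 hj)
  rw [← pow_mul, ← pow_succ]
  congr 2
  omega

theorem coeff_big {N i : ℕ} (hi : ¬ p ∣ i) (h : K[X]) (hN : h.natDegree ≤ N) {j : ℕ} (hj : N ≤ j) :
    h.coeff (i * p ^ j) = 0 := by
  apply coeff_eq_zero_of_natDegree_lt
  have hi1 : 1 ≤ i := by
    rcases Nat.eq_zero_or_pos i with h0 | h0
    · rw [h0] at hi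
      exact absurd (dvd_zero p) hi
    · exact h0
  have h1 : j < p ^ j := Nat.lt_pow_self hp.out.one_lt
  have h2 : p ^ j ≤ i * p ^ j := Nat.le_mul_of_pos_left _ hi1
  omega

theorem CC_succ' {N i : ℕ} (hi : ¬ p ∣ i) (h : K[X]) (hN : h.natDegree ≤ N) :
    CC p (N + 1) i h = CC p N i h ^ p := by
  rw [CC_succ, coeff_big hi h hN (Nat.le_succ N), add_zero]

theorem CC_zero_iff {N i : ℕ} (hi : ¬ p ∣ i) (h : K[X]) (hN : h.natDegree ≤ N) (k : ℕ) :
    CC p (N + k) i h = 0 ↔ CC p N i h = 0 := by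
  induction k with
  | zero => rfl
  | succ k ih =>
    rw [← add_assoc, CC_succ' hi h (by omega), pow_eq_zero_iff hp.out.ne_zero, ih]

theorem coeff_pow_p (g : K[X]) (n : ℕ) :
    (g ^ p).coeff n = if p ∣ n then g.coeff (n / p) ^ p else 0 := by
  rw [← map_frobenius_expand, coeff_map, coeff_expand hp.out.pos]
  split_ifs
  · rfl
  · exact map_zero _

theorem CC_pow {N i : ℕ} (hi : ¬ p ∣ i) (g : K[X]) (hN : g.natDegree ≤ N) :
    CC p N i (g ^ p) = CC p N i g := by
  have hpos := hp.out.pos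
  have e1 : CC p N i g = ∑ j ∈ range N, g.coeff (i * p ^ j) ^ (p ^ (N - j)) := by
    rw [CC, sum_range_succ, coeff_big hi g hN le_rfl, Nat.sub_self, pow_zero, pow_one, add_zero]
  rw [e1, CC, sum_range_succ']
  have e2 : (g ^ p).coeff (i * p ^ 0) = 0 := by
    rw [coeff_pow_p, if_neg]
    rwa [pow_zero, mul_one]
  rw [e2, zero_pow (pow_ne_zero _ hp.out.ne_zero), add_zero]
  refine sum_congr rfl fun j hj => ?_
  have hj' : j < N := mem_range.1 hj
  have e3 : i * p ^ (j + 1) = (i * p ^ j) * p := by rw [pow_succ, mul_assoc]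
  rw [coeff_pow_p, e3, if_pos (Dvd.intro_left _ rfl), Nat.mul_div_cancel _ hpos, ← pow_mul,
    ← pow_succ']
  congr 2
  omega

theorem CC_inv {N i : ℕ} (hi : ¬ p ∣ i) (h g : K[X]) (hg : g.natDegree ≤ N) :
    CC p N i (h + g ^ p - g) = CC p N i h := by
  rw [CC_sub, CC_add, CC_pow hi g hg]
  ring

theorem main_iff [IsAlgClosed K] (hMIN : ∀ h : K[X], ∃ g : K[X],
    (h + g ^ p - g).natDegree = minDeg p h ∧
    (h + g ^ p - g = 0 ∨ ¬ p ∣ (h + g ^ p - g).natDegree)) (h : K[X]) {N : ℕ}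
    (hN : h.natDegree ≤ N) (m : ℕ) :
    m ≤ minDeg p h ↔ m = 0 ∨ ∃ i, m ≤ i ∧ ¬ p ∣ i ∧ CC p N i h ≠ 0 := by
  constructor
  · intro hm
    rcases Nat.eq_zero_or_pos m with h0 | h0
    · exact Or.inl h0
    · right
      obtain ⟨g, hg1, hg2⟩ := hMIN h
      set f := h + g ^ p - g with hf
      have hfn : f ≠ 0 := by
        intro h1
        rw [h1, natDegree_zero] at hg1
        omega
      have hd : ¬ p ∣ f.natDegree := hg2.resolve_left hfn
      refine ⟨f.natDegree, by omega, hd, ?_⟩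
      rw [Ne, ← CC_zero_iff hd h hN g.natDegree, ← CC_inv hd h g (by omega), ← hf, CC,
        Finset.sum_eq_single 0]
      · rw [pow_zero, mul_one]
        exact pow_ne_zero _ (leadingCoeff_ne_zero.2 hfn)
      · intro j _ hj
        have h2 : f.coeff (f.natDegree * p ^ j) = 0 := by
          apply coeff_eq_zero_of_natDegree_lt
          have h3 : 0 < f.natDegree := by omega
          have h4 : 1 < p ^ j := Nat.one_lt_pow hj hp.out.one_lt
          nlinarith
        rw [h2, zero_pow (pow_ne_zero _ hp.out.ne_zero)]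
      · intro h2
        exact absurd (mem_range.2 (Nat.succ_pos _)) h2
  · rintro (h0 | ⟨i, him, hi, hC⟩)
    · rw [h0]
      exact Nat.zero_le _
    · by_contra hlt
      rw [not_le] at hlt
      apply hC
      obtain ⟨g, hg⟩ := exists_minDeg (p := p) h
      rw [← CC_zero_iff hi h hN g.natDegree, ← CC_inv hi h g (by omega), CC]
      refine Finset.sum_eq_zero fun j _ => ?_
      have h2 : (h + g ^ p - g).coeff (i * p ^ j) = 0 := by
        apply coeff_eq_zero_of_natDegree_lt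
        have h4 : 1 ≤ p ^ j := Nat.one_le_pow _ _ hp.out.pos
        have h5 : i ≤ i * p ^ j := Nat.le_mul_of_pos_right _ h4
        omega
      rw [h2, zero_pow (pow_ne_zero _ hp.out.ne_zero)]

end

theorem t_SEMI : S_SEMI.{u} := by
  intro p hp R _ hpR f m
  rcases Nat.eq_zero_or_pos m with h0 | h0
  · refine ⟨Set.univ, isOpen_univ, ?_⟩
    intro K _ _ φ
    rw [h0]
    exact ⟨fun _ => Set.mem_univ _, fun _ => Nat.zero_le _⟩
  · refine ⟨⋃ (i : ℕ) (_ : m ≤ i ∧ ¬ p ∣ i),
      (PrimeSpectrum.basicOpen (CC p f.natDegree i f) : Set (PrimeSpectrum R)),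
      isOpen_iUnion fun i => isOpen_iUnion fun _ => PrimeSpectrum.isOpen_basicOpen, ?_⟩
    intro K _ _ φ
    have hpK : (p : K) = 0 := by
      rw [← map_natCast φ, hpR, map_zero]
    haveI : CharP K p := (CharP.charP_iff_prime_eq_zero hp.out).2 hpK
    rw [main_iff (t_MIN p K).1 (f.map φ) natDegree_map_le m]
    simp only [Set.mem_iUnion, SetLike.mem_coe, PrimeSpectrum.mem_basicOpen, RingHom.mem_ker,
      CC_map, exists_prop]
    constructor
    · rintro (h1 | ⟨i, h1, h2, h3⟩)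
      · omega
      · exact ⟨i, ⟨h1, h2⟩, h3⟩
    · rintro ⟨i, ⟨h1, h2⟩, h3⟩
      exact Or.inr ⟨i, h1, h2, h3⟩

end Run7.h81.WC
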